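import Pool.Agent.Helper73.HE.Top

/-! Erdős-type partition properties in HOD below a singular cardinal whose successor is
omega-strongly measurable in HOD (the definitions of the statement are in
`Pool/Agent/Helper73/HODC/Defs.lean` and `Pool/Agent/Helper73/HE/Defs.lean`). -/

namespace Pool.Agent.Results.MP_dbe07f_lc.Erdos

open Pool.Agent.Helper73.HODC Pool.Agent.Helper73.HE Ordinal Cardinal Order

/-- Let `lam` be a singular cardinal of uncountable cofinality `μ` with `δ ^ μ < lam` for all
`δ < lam` and `2 ^ (2 ^ μ) < lam` (for instance a singular strong limit cardinal of uncountable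
cofinality), and suppose that `lam⁺` is omega-strongly measurable in HOD. Then there is a club
`C` of `lam` such that for every cardinal `δ ∈ C` and every ordinal `ρ` which is at most the order
type of `C ∩ δ`:

* for every colouring `F` in HOD of the finite increasing sequences of ordinals below `δ⁺` which is
  regressive above some `γ < δ⁺`, every club subset of `δ⁺` (in `V`) has a subset of order type `ρ`
  (in `V`) which is homogeneous for `F`;
* if `ρ` is countable in HOD, then for every `F` as above every club subset of `δ⁺` in HOD has in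
  HOD a subset of order type `ρ` which is homogeneous for `F`, that is, `δ⁺` is `ρ`-Erdős in
  HOD. -/
theorem result (lam : Cardinal.{0}) (hs : lam.IsSingular) (hc : ℵ₀ < lam.ord.cof)
    (h1 : ∀ δ < lam, δ ^ lam.ord.cof < lam)
    (h2 : (2 : Cardinal.{0}) ^ ((2 : Cardinal.{0}) ^ lam.ord.cof) < lam)
    (h : OmegaStronglyMeasurable (succ lam).ord) :
    ∃ C, Club C lam.ord ∧ ∀ δ : Cardinal.{0}, δ < lam → δ.ord ∈ C → ∀ ρ g,
      Incr ρ δ.ord g → (∀ ξ < ρ, g ξ ∈ C) →
      HODPartition ρ (succ δ).ord ∧ (HODCountable ρ → HODErdos ρ (succ δ).ord) :=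
  main hs hc h1 h2 h

end Pool.Agent.Results.MP_dbe07f_lc.Erdos
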