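import Pool.Agent.Helper73.HX.Top

/-! A dichotomy for the HOD Hypothesis and the Mitchell order of HOD (the definitions of the
statement are in `Pool/Agent/Helper73/HODC/Defs.lean`, `Pool/Agent/Helper73/HM/Defs.lean` and
`Pool/Agent/Helper73/HX/Defs.lean`). -/

namespace Pool.Agent.Results.MP_dbe07f_lc.Mitchell

open Pool.Agent.Helper73.HODC Pool.Agent.Helper73.HM Pool.Agent.Helper73.HX Ordinal Cardinal Order

/-- Let `κ` be a strongly compact or an extendible cardinal. Then either

* the HOD Hypothesis holds, and every limit ordinal `α ≥ κ` of cofinality less than `κ` is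
  singular in HOD; or
* for some `θ`, and for `θ = κ` if `κ` is extendible, all regular cardinals `lam > θ` are
  omega-strongly measurable in HOD (so the HOD Hypothesis fails), and for each of them HOD
  contains a sequence of length `κ` of normal ultrafilters on `lam` (in the sense of HOD) which is
  increasing in the Mitchell order of HOD. -/
theorem result (κ : Cardinal.{0}) (hκ : StronglyCompact κ ∨ Extendible κ) :
    (HODHypothesis ∧
      ∀ α : Ordinal.{0}, IsSuccLimit α → κ.ord ≤ α → α.cof < κ → HODSing α) ∨
    (∃ θ : Ordinal.{0}, (Extendible κ → θ = κ.ord) ∧ ∀ lam : Cardinal.{0}, lam.IsRegular →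
      θ < lam.ord → OmegaStronglyMeasurable lam.ord ∧ MitchellChain κ.ord lam.ord) :=
  mitchell κ (sc_or hκ)

end Pool.Agent.Results.MP_dbe07f_lc.Mitchell
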