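import Pool.Agent.Helper73.HX.Zfc

/-! A theorem of ZFC on the cofinalities of the successor cardinals of HOD (the definitions of the
statement are in `Pool/Agent/Helper73/HODC/Defs.lean` and `Pool/Agent/Helper73/HU/Defs.lean`). -/

namespace Pool.Agent.Results.MP_dbe07f_lc.SuccessorCofinality

open Pool.Agent.Helper73.HODC Pool.Agent.Helper73.HU Pool.Agent.Helper73.HX
open Ordinal Cardinal Order

/-- (ZFC) For every infinite cardinal `σ`, regular or singular, either `(σ⁺)^HOD = σ⁺` or the
cofinality of `(σ⁺)^HOD` is `ω` or the cofinality of `σ`.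

More generally let `μ` be a limit ordinal and `τ` the next regular cardinal of HOD. If the
cofinality of `τ` is uncountable and different from the cofinality of `μ`, then for some `γ < μ`
all regular cardinals `lam` of HOD with `γ < lam ≤ μ` satisfy `cf lam ≤ cf τ`. (All cofinalities
are computed in `V`.) -/
theorem result :
    (∀ σ : Cardinal.{0}, ℵ₀ ≤ σ → ∀ τ, HODNext σ.ord τ →
      τ = (succ σ).ord ∨ τ.cof = ℵ₀ ∨ τ.cof = σ.ord.cof) ∧
    ∀ μ τ : Ordinal.{0}, HODNext μ τ → IsSuccLimit μ → ℵ₀ < τ.cof → μ.cof ≠ τ.cof →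
      ∃ γ < μ, ∀ lam, HODReg lam → γ < lam → lam ≤ μ → lam.cof ≤ τ.cof :=
  ⟨zfc, stM⟩

end Pool.Agent.Results.MP_dbe07f_lc.SuccessorCofinality
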